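import Pool.Agent.H44T.BR.Conv

/-!
# The coniveau case of the generalized Hodge conjecture: maps of bounded rank

Fix the dimension `n` and the degree `i ≥ 2` (and `ν = 1`). The union `N^1 H^i(Y)` of the kernels of the
restrictions `H^i(Y) → H^i(U)` to the dense open subsets is the span of the images of the Gysin maps
`H^(i-2)(Z) → H^i(Y)`, `Z` smooth projective of dimension `n - 1`, and it is the kernel for one `U`. The
class `C` of polarized varieties is such that for `S` in `C` of dimension `n` and all `N` it contains
smooth complete intersections `V ⊆ S^N` of dimension `n` of divisors in multiples of the class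
`D + ... + D`. By the theorem of Lefschetz `H^j(V) = H^j(S^N)` for `j < n`, so for `i < n` the class of all
`Y` with `h^{j,0}(Y) = 0` for `0 < j ≤ i` is an example.

**Theorem.**

(1) For all `Y` in `C` of dimension `n` the restriction `H^i(Y) → H^i(U)` is zero for some `U` if and only
if there is ONE number `d`, for example `d = 10 ^ 100`, such that for all `Y` in `C` of dimension `n` the
rank of the restriction is at most `d` for some `U`.

(2) Let `T(Y) ⊆ H^i(Y)` be subspaces stable under pull-backs which contain `N^1 H^i(Y)`, for example the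
largest sub-Hodge structure with `h^{i,0} = 0`. Then `T(Y) = N^1 H^i(Y)` for all `Y` in `C` of dimension `n`
if and only if the codimension of `N^1 H^i(Y)` in `T(Y)` is bounded. (For this `T`, with `C` the class of
all varieties, the equality contains the conjecture for all `Y` of dimension `n` with `h^{i,0} = 0`.)

(3) For one `S` of dimension `n` in `C` the equality `T(S) = N^1 H^i(S)` holds if, for some `N`, for one
complete intersection `V ⊆ S^N` as above the codimension `d` of `N^1 H^i(V)` in `T(V)` satisfies
`d dim H(S) < N`.

The same holds for all `ν ≤ i / 2` in place of `ν = 1`.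

Proof. If `x ∈ T(S)` is orthogonal to the powers of `ξ` then `p_{m*} p_j^* x = 0` for `m ≠ j` and
`p_{j*} p_j^* x = κ x`, where `p_l : V → S` are the projections. Let `M` be a complement of `N^1 H^i(V)` in
`T(V)` and `N > d dim H(S)`; there is a nontrivial relation `∑ b_l p_{l*} = 0` on `M`, so
`b_j κ x = ∑ b_l p_{l*} (p_j^* x)` is in the sum of the `p_{l*} N^1 H^i(V) ⊆ N^1 H^i(S)`.
-/

universe u v

namespace Pool.Agent.Results.MP_1c689d_ag.BoundedConiveauDefects

open Pool.Agent.H914 Pool.Agent.H914.VarClass Pool.Agent.H914.VarClass.Obj
  Pool.Agent.H914.WeilCohomology Pool.Agent.H44T.BR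

/-- **All classes of degree `i` vanish on dense open subsets if the restrictions can be made of
bounded rank.** -/
theorem result {k : Type u} [Field k] {𝒱 : VarClass k} {ops : CycleOps 𝒱}
    (W : WeilCohomology.{u, v} ops) (Pol : ∀ X : 𝒱.Obj, X.Cycles → Prop) (n ν i : ℕ)
    (hi : 2 * ν ≤ i) (hP : HasPowers W Pol n) (hS : HasPlaneSections W Pol n ν) :
    (SupportedAll W Pol n ν i ↔ ∃ d, SupportedAllUpTo W Pol n ν i d) ∧
    (∀ T : ∀ X : 𝒱.Obj, Submodule W.K (W.H X), IsUpperConiveau W n ν i T →
      (UpperAll W Pol n ν i T ↔ ∃ d, UpperAllUpTo W Pol n ν i T d) ∧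
        UpperForPowers W Pol n ν i T) :=
  ⟨supported_iff hi hP hS, fun _ hT => ⟨upper_iff hi hP hS hT, upper_of_power hi hP hS hT⟩⟩

end Pool.Agent.Results.MP_1c689d_ag.BoundedConiveauDefects
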