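import Pool.Agent.V1157.GT.Main

/-!
# Finite groups acting on Hodge structures of coniveau one

Fix a dimension `n` and a degree `m ≥ 1`. For a smooth projective complex variety `X` of dimension
`n` let `T(X) ⊆ H^m(X, ℚ)` be the largest sub-Hodge structure with `h^{m,0}(T(X)) = 0` and let
`N(X) ⊆ H^m(X, ℚ)` be the subspace of the classes which vanish on a dense Zariski open subset. The
following are equivalent:

1. `T(X) ⊆ N(X)` for all `X` (the generalised Hodge conjecture for coniveau one in degree `m` and
   dimension `n`; for `h^{m,0}(X) = 0` this is Q1, because then `T(X) = H^m(X, ℚ)`);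
2. for some finite group `G` and some non-zero `f ∈ ℚ[G]` the dimension of `f` applied to
   `T(X)/(T(X) ∩ N(X))` is bounded, by a bound valid for all actions of `G` on varieties `X` of
   dimension `n`;
3. every finite group acting on a variety `X` of dimension `n` acts on this quotient through an
   abelian quotient;
4. the automorphisms in finite groups acting on varieties of dimension `n` satisfy, on these
   quotients, some non-zero multilinear polynomial identity.

Proof of 2 ⇒ 1: let `t ∈ T(S)` and let `V` be a complete intersection of dimension `n`, stable under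
`G`, in the power `S^(G × {0, …, D})`. Then `g_* (p 1 l)^* t = (p g l)^* t`, and
`(p h l)_* (p g j)^* t` is a non-zero multiple of `t` if `(g, j) = (h, l)`, and otherwise zero, if
`m` is odd, or the class of a multiple of a cycle of codimension `m / 2`, if `m` is even.
-/

open CategoryTheory AlgebraicGeometry

universe u v w

namespace Pool.Agent.Results.MP_1c689d_ag.FiniteGroupActions

open Pool.Agent.H914 Pool.Agent.H914.VarClass Pool.Agent.H914.VarClass.Obj Pool.Agent.W492.BB
  Pool.Agent.TH133 Pool.Agent.V1157.GT
open Pool.Agent.V1157.FG (HasEquivariantPower)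

theorem result {k : Type u} [Field k] {𝒱 : VarClass k} {C : TheoryData.{u, v, 0} 𝒱 ℚ}
    [IsChowProj C] {K : Type w} [Field K] [CharZero K] (H : WeilTheoryData.{u, v, w} C K)
    [IsWeilProj H] (T N : ∀ X : 𝒱.Obj, Submodule K (H.A X)) (n m : ℕ)
    (hN : IsConiveau H T N n m)
    (hP : ∀ (G : Type) [Group G] [Finite G] (M : ℕ) (S : 𝒱.Obj), S.dim = n →
      HasEquivariantPower C n G M S) :
    List.TFAE [AllIn H T N n,
      ∃ (G : Type) (_ : Group G) (_ : Fintype G) (f : G → K) (D : ℕ), f ≠ 0 ∧
        RankAtMost H T N n f D,
      ActAbelian H T N n,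
      ∃ (d : ℕ) (c : Equiv.Perm (Fin d) → K), c ≠ 0 ∧ ActIdentity H T N n d c] :=
  main hN hP

end Pool.Agent.Results.MP_1c689d_ag.FiniteGroupActions
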