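import Pool.Agent.H255R.MR.Map

/-!
# The generalised Hodge conjecture for products of regular surfaces and for products of curves
-/

open CategoryTheory AlgebraicGeometry

universe u v w x

namespace Pool.Agent.Results.MP_1c689d_ag.RegularSurfaces

open Pool.Agent.H914 Pool.Agent.H914.VarClass Pool.Agent.H914.VarClass.Obj Pool.Agent.W492.BB
  Pool.Agent.W550.Corr Pool.Agent.TH133 Pool.Agent.H255R.HR Pool.Agent.H255R.MR

/-- The generalised Hodge conjecture for `X` and for the coniveau `c ≤ R`: the classes of the family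
`𝓜` (the Hodge coniveau is at least `c`) are in the family `𝓝` (the geometric coniveau is at least
`c`). -/
def GeneralisedHodge {k : Type u} [Field k] {𝒱 : VarClass k} {C : TheoryData.{u, v, 0} 𝒱 ℚ}
    {D : ModData.{u, v, x} C} (𝓜 𝓝 : Fam D) (R : ℤ) (X : 𝒱.Obj) : Prop :=
  ∀ c ≤ R, ∀ y : D.A X, 𝓜.Mem X c y → 𝓝.Mem X c y

/-- Consider the smooth projective varieties `X` over `ℂ` and the sums `D(X) = ⊕_i H^i(X, ℚ)`, fix an
integer `w = i - 2 c`, and consider the families of the classes in `H^{w+2c}(X, ℚ)` which lie in a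
Hodge substructure of Hodge coniveau at least `c` (the family `𝓜`), or vanish on the complement of a
closed subset of codimension at least `c` (the family `𝓝`). Both families are preserved by
pull-backs, push-forwards and products with cycles, with the shift of `c` by the codimension. For
`c ≤ 0` the condition is empty; for `R = 1` and `w = i - 2` the condition `GeneralisedHodge` says that
the Hodge substructures of `H^i(X, ℚ)` without part of type `(i, 0)` are supported on divisors; if
`h^{i,0}(X) = 0` this is the conclusion of the problem for `X`. More generally, let `𝓜` and `𝓝`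
be two families of classes in a module theory `D`.

Let `𝒞` be a class of curves with `HasGalQuotients` (for example all curves, or one hyperelliptic
curve). For all varieties `U` and all `R` and `N` the following statements are equivalent.

1. The generalised Hodge conjecture for the coniveau at most `R` (and `i = 2 c + w`) holds for the
varieties `U × A` and `U × A × S`, where `A` is a product of at most `N` regular surfaces dominated by
products of two curves in `𝒞`, and `S` is a curve in `𝒞`.
2. The same without the condition that the surfaces be regular.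
3. The same conjecture holds for `U × W`, where `W` is a product of at most `2 N + 1` curves
in `𝒞`.
4. The same conjecture holds for all varieties which are dominated by varieties `U × W` as in 3. -/
theorem result {k : Type u} [Field k] {𝒱 : VarClass k} (C : TheoryData.{u, v, 0} 𝒱 ℚ)
    [IsChowProj C] {F : Type w} [Field F] [CharZero F] (H : WeilTheoryData.{u, v, w} C F)
    [IsWeilProj H] (D : ModData.{u, v, x} C) (hD : IsModTheory D) (𝓜 𝓝 : Fam D)
    (𝒞 : 𝒱.Obj → Prop) (hG : HasGalQuotients.{u, v, w, x} H 𝒞) (U : 𝒱.Obj) (R : ℤ) (N : ℕ) :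
    List.TFAE [
      ∀ m ≤ N, ∀ A : 𝒱.Obj, IsProdOf U (IsRegDominated.{u, v, w, x} H 𝒞) m A →
        GeneralisedHodge 𝓜 𝓝 R A ∧ ∀ S : 𝒱.Obj, 𝒞 S → GeneralisedHodge 𝓜 𝓝 R (A.prod S),
      ∀ m ≤ N, ∀ A : 𝒱.Obj, IsProdOf U (IsDominated.{u, v, x} C 𝒞) m A →
        GeneralisedHodge 𝓜 𝓝 R A ∧ ∀ S : 𝒱.Obj, 𝒞 S → GeneralisedHodge 𝓜 𝓝 R (A.prod S),
      ∀ l ≤ 2 * N + 1, ∀ W : 𝒱.Obj, IsProdOf U 𝒞 l W → GeneralisedHodge 𝓜 𝓝 R W,
      ∀ l ≤ 2 * N + 1, ∀ W X : 𝒱.Obj, IsProdOf U 𝒞 l W → IsDominatedBy C W X →
        GeneralisedHodge 𝓜 𝓝 R X] :=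
  tfae1 (M := D) (𝓜 := 𝓜) (𝓝 := 𝓝) hG U R N _ fun _ => Iff.rfl

end Pool.Agent.Results.MP_1c689d_ag.RegularSurfaces
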